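import Pool.Agent.W808.HB.All

/-!
Critical bond percolation on the square lattice, on a half-infinite cylinder of any circumference `N`
(the lattice is rotated by 45 degrees): the exact law of `m` interfaces (legs) which start side by side
at the boundary and go around the cylinder, for all `m` and all `N`.

Each unit square `[j, j+1] × [t, t+1]`, `t ≥ 0`, contains exactly one of its two diagonals, with
probability `1/2` each, independently (fair coins).  The diagonals through the points `(j, t)` with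
`j + t` even are the open bonds of a square lattice, the other diagonals are its dual-open bonds.
-/

set_option autoImplicit false

namespace Pool.Agent.Results.MP_b3e76a_pr.BoundaryLegs

open MeasureTheory

/-- Fair coins: one for each unit square with lower left corner `(j, t)`, `j ∈ ℤ`, `t ∈ ℕ`. -/
noncomputable def coins : Measure (ℤ × ℕ → Bool) :=
  Measure.infinitePi (fun _ => ProbabilityTheory.bernoulliMeasure true false
    ⟨1/2, by norm_num, by norm_num⟩)

/-- The links of the half-infinite cylinder of circumference `N`, on its universal cover `ℤ × ℕ`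
(only the coins of the squares with `0 ≤ j < N` are used): the diagonal of the square with lower left
corner `(j, t)` rises if the coin of `(j mod N, t)` shows `false` and falls if it shows `true`; at the
boundary `t = 0` the points `m, m + 2, m + 4, … ≤ N` are wired together (modulo `N`). -/
inductive Link (N m : ℕ) (ω : ℤ × ℕ → Bool) : ℤ × ℕ → ℤ × ℕ → Prop
  | rise (j : ℤ) (t : ℕ) : ω (j % N, t) = false → Link N m ω (j, t) (j + 1, t + 1)
  | fall (j : ℤ) (t : ℕ) : ω (j % N, t) = true → Link N m ω (j + 1, t) (j, t + 1)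
  | wire (s : ℤ) (i : ℕ) : m + 2 * i + 2 ≤ N →
      Link N m ω (s * N + m + 2 * i, 0) (s * N + m + 2 * i + 2, 0)

/-- Connection by links on the universal cover. -/
def Conn (N m : ℕ) (ω : ℤ × ℕ → Bool) : ℤ × ℕ → ℤ × ℕ → Prop := Relation.EqvGen (Link N m ω)

/-- The `m` leg event: the boundary points `1, …, m - 1` are pairwise not connected, not connected to
the wired points `0` and `m`, and each of them is connected to another sheet of the universal cover.
So the `m` interfaces which start between the points `0, 1, …, m` all go around the cylinder. -/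
def Legs (N m : ℕ) (ω : ℤ × ℕ → Bool) : Prop :=
  (∀ c d : ℕ, 1 ≤ c → c < m → d ≤ m → c ≠ d → ¬ Conn N m ω ((c : ℤ), 0) ((d : ℤ), 0)) ∧
  (∀ c : ℕ, 1 ≤ c → c < m → ∃ s : ℤ, s ≠ 0 ∧ ∃ d : ℕ, 1 ≤ d ∧ d < m ∧
    Conn N m ω ((c : ℤ), 0) (s * N + d, 0))

/-- The numbers `C(m, M)`. For `m = 0, 1` they count the half-turn symmetric alternating sign matrices
of size `m + 2 M`. -/
noncomputable def C (m M : ℕ) : ℝ := ∏ i ∈ Finset.range M,
  (((m + 3 * i + 2).factorial : ℝ) * i.factorial * (m + i).factorial * (2 * m + 3 * i).factorial) /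
    (((2 * i + 1).factorial : ℝ) * (m + 2 * i).factorial * (m + 2 * i + 1).factorial *
      (2 * m + 2 * i).factorial)

/-- **The exact law of `m` boundary legs.** For every `m` and every circumference `N = m + 2 M ≥ 1` the
probability of the `m` leg event is `C(m, M) / C(m mod 2, M + ⌊m / 2⌋)`; it is of order
`N ^ (-m (m - 1) / 6)`, that is `N ^ (-j (j + 1) / 6)` for the `j = m - 1` alternating boundary arms. -/
theorem result :
    (∀ m M : ℕ, 1 ≤ m + 2 * M →
      coins.real {ω | Legs (m + 2 * M) m ω} = C m M / C (m % 2) (M + m / 2)) ∧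
    (∀ m : ℕ, ∃ a b : ℝ, 0 < a ∧ 0 < b ∧ ∀ M : ℕ, 1 ≤ m + 2 * M →
      a * ((m + 2 * M : ℕ) : ℝ) ^ (-((m : ℝ) * (m - 1) / 6)) ≤
        coins.real {ω | Legs (m + 2 * M) m ω} ∧
      coins.real {ω | Legs (m + 2 * M) m ω} ≤
        b * ((m + 2 * M : ℕ) : ℝ) ^ (-((m : ℝ) * (m - 1) / 6))) := by
  have hL : ∀ (N m : ℕ) (ω : ℤ × ℕ → Bool) (x y : ℤ × ℕ),
      Link N m ω x y ↔ Pool.Agent.W808.HB.HL N m ω x y := by
    intro N m ω x y
    constructor
    · intro h
      cases h with
      | rise j t h => exact .rise j t h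
      | fall j t h => exact .fall j t h
      | wire s i h => exact .wire s i h
    · intro h
      cases h with
      | rise j t h => exact .rise j t h
      | fall j t h => exact .fall j t h
      | wire s i h => exact .wire s i h
  have hLeg : ∀ (N m : ℕ) (ω : ℤ × ℕ → Bool),
      Legs N m ω ↔ Pool.Agent.W808.HB.LegEv N m ω := by
    intro N m ω
    have h : Link N m ω = Pool.Agent.W808.HB.HL N m ω := by
      funext x y
      exact propext (hL N m ω x y)
    unfold Legs Pool.Agent.W808.HB.LegEv Pool.Agent.W808.HB.Sec Conn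
    rw [h]
  have hlaw : ∀ m M : ℕ, 1 ≤ m + 2 * M →
      coins.real {ω | Legs (m + 2 * M) m ω} = Pool.Agent.W808.HB.Pn m M := by
    intro m M h
    have e : {ω | Legs (m + 2 * M) m ω} = {ω | Pool.Agent.W808.HB.LegEv (m + 2 * M) m ω} := by
      ext ω
      exact hLeg _ _ ω
    rw [e]
    exact Pool.Agent.W808.HB.a_X7 m M h
  refine ⟨fun m M h => hlaw m M h, fun m => ?_⟩
  obtain ⟨c, C', hc, hC, hb⟩ := Pool.Agent.W808.HB.t_AS m
  obtain ⟨e, he⟩ : ∃ e : ℝ, e = (m : ℝ) * (m - 1) / 6 := ⟨_, rfl⟩
  have he0 : 0 ≤ e := by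
    rw [he]
    rcases Nat.eq_zero_or_pos m with h | h
    · subst h; norm_num
    · have : (1 : ℝ) ≤ m := by exact_mod_cast h
      have : 0 ≤ (m : ℝ) * (m - 1) := mul_nonneg (by linarith) (by linarith)
      linarith
  rw [← he] at hb ⊢
  refine ⟨c, C' * ((m : ℝ) + 2) ^ e, hc, by positivity, fun M hM => ?_⟩
  rw [hlaw m M hM]
  obtain ⟨h1, h2⟩ := hb M
  have hN : (0 : ℝ) < ((m + 2 * M : ℕ) : ℝ) := by exact_mod_cast hM
  have hM1 : (0 : ℝ) < (M : ℝ) + 1 := by positivity
  have hle : (M : ℝ) + 1 ≤ ((m + 2 * M : ℕ) : ℝ) := by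
    have : M + 1 ≤ m + 2 * M := by omega
    exact_mod_cast this
  have hge : ((m + 2 * M : ℕ) : ℝ) ≤ ((m : ℝ) + 2) * (M + 1) := by
    push_cast
    nlinarith [Nat.cast_nonneg (α := ℝ) m, Nat.cast_nonneg (α := ℝ) M]
  constructor
  · refine le_trans ?_ h1
    refine mul_le_mul_of_nonneg_left ?_ hc.le
    exact Real.rpow_le_rpow_of_nonpos hM1 hle (by linarith)
  · refine h2.trans ?_
    rw [mul_assoc]
    refine mul_le_mul_of_nonneg_left ?_ hC.le
    have h3 : (((m : ℝ) + 2) * (M + 1)) ^ (-e) ≤ ((m + 2 * M : ℕ) : ℝ) ^ (-e) :=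
      Real.rpow_le_rpow_of_nonpos hN hge (by linarith)
    have h4 : ((M : ℝ) + 1) ^ (-e) = ((m : ℝ) + 2) ^ e * (((m : ℝ) + 2) * (M + 1)) ^ (-e) := by
      rw [Real.mul_rpow (by positivity) (by positivity), ← mul_assoc, ← Real.rpow_add (by positivity),
        add_neg_cancel, Real.rpow_zero, one_mul]
    rw [h4]
    exact mul_le_mul_of_nonneg_left h3 (by positivity)

end Pool.Agent.Results.MP_b3e76a_pr.BoundaryLegs
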