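import Pool.Agent.W808.KC.All

/-!
Critical bond percolation on the square lattice in the half-infinite strip
`{(x, y) : y ≤ x, -1 ≤ x + y ≤ 2 n + 1}` (flat end on the line `x = y`, free walls, all sides at 45
degrees to the lattice axes): the exact law of `m` interfaces (legs) from one corner to the other, for
all widths and all `m ≥ 2`.
-/

set_option autoImplicit false

namespace Pool.Agent.Results.MP_b3e76a_pr.CornerLegs

open MeasureTheory

/-- Vertices of the square lattice. -/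
abbrev Vertex := ℤ × ℤ

/-- Edges: `(x, y, true)` joins `(x, y)` to `(x + 1, y)` and `(x, y, false)` joins `(x, y)` to
`(x, y + 1)`. -/
abbrev Edge := ℤ × ℤ × Bool

/-- Configurations (`true` = open). -/
abbrev Conf := Edge → Bool

/-- Critical bond percolation: every edge is open with probability `1 / 2`, independently. -/
noncomputable def crit : Measure Conf :=
  Measure.infinitePi (fun _ : Edge => (PMF.uniformOfFintype Bool).toMeasure)

/-- First endpoint of an edge. -/
def src (e : Edge) : Vertex := (e.1, e.2.1)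

/-- Second endpoint of an edge. -/
def tgt (e : Edge) : Vertex := if e.2.2 then (e.1 + 1, e.2.1) else (e.1, e.2.1 + 1)

/-- The vertices of the half-infinite strip. -/
def strip (n : ℕ) : Set Vertex := {v | v.2 ≤ v.1 ∧ -1 ≤ v.1 + v.2 ∧ v.1 + v.2 ≤ 2 * n + 1}

/-- `u` and `v` are joined by an open edge of the strip. -/
def Adj (n : ℕ) (ω : Conf) (u v : Vertex) : Prop :=
  ∃ e : Edge, ω e = true ∧ src e ∈ strip n ∧ tgt e ∈ strip n ∧
    ((src e = u ∧ tgt e = v) ∨ (src e = v ∧ tgt e = u))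

/-- `u` and `v` are joined by an open path in the strip. -/
def Conn (n : ℕ) (ω : Conf) (u v : Vertex) : Prop := Relation.ReflTransGen (Adj n ω) u v

/-- `m` legs between the two corners: with `k = ⌊m / 2⌋`, the vertices `(0, 0), …, (k - 1, k - 1)` of
the flat end at the left corner are in `k` different open clusters of the strip, each of these clusters
contains one of the vertices `(n, n), …, (n - k + 1, n - k + 1)` at the right corner and, if `m` is odd,
none of them contains one of the other vertices `(l, l)`, `k ≤ l ≤ n - k`, of the flat end. -/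
def Legs (n m : ℕ) (ω : Conf) : Prop :=
  (∀ i i' : ℕ, i < m / 2 → i' < m / 2 → i ≠ i' →
    ¬ Conn n ω ((i : ℤ), (i : ℤ)) ((i' : ℤ), (i' : ℤ))) ∧
  (∀ i : ℕ, i < m / 2 → ∃ l : ℕ, l < m / 2 ∧
    Conn n ω ((i : ℤ), (i : ℤ)) ((n : ℤ) - l, (n : ℤ) - l)) ∧
  (m % 2 = 1 → ∀ i l : ℕ, i < m / 2 → m / 2 ≤ l → l + m / 2 ≤ n →
    ¬ Conn n ω ((i : ℤ), (i : ℤ)) ((l : ℤ), (l : ℤ)))

/-- The numbers `C(t, M)`. -/
noncomputable def C (t M : ℕ) : ℝ := ∏ i ∈ Finset.range M,
  (((2 * t + 3 * i + 2 : ℕ) : ℝ) * (i + 1).factorial *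
      ∏ s ∈ Finset.range (i + 1), (((2 * t + 3 + 4 * i + 2 * s) * (2 * t + 1 + 2 * i + s) : ℕ) : ℝ)) /
    ((2 * i + 2).factorial * ∏ s ∈ Finset.range (i + 2), ((2 * t + 1 + 2 * i + 2 * s : ℕ) : ℝ))

theorem conn_eq (n : ℕ) (ω : Conf) (u v : Vertex) :
    Conn n ω u v ↔ H974.Reach ({e | ω e = true} ∩ Pool.Agent.W808.KC.Ss n) u v := by
  have h : Adj n ω = H974.Adj ({e | ω e = true} ∩ Pool.Agent.W808.KC.Ss n) := by
    funext a b
    refine propext ⟨?_, ?_⟩
    · rintro ⟨e, h1, h2, h3, h4⟩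
      refine ⟨e, ⟨h1, ?_⟩, h4⟩
      obtain ⟨x, y, c⟩ := e
      simp only [strip, src, tgt, Set.mem_ofPred_eq] at h2 h3
      simp only [Pool.Agent.W808.KC.Ss, H906.Cyl.dco, Set.mem_ofPred_eq]
      cases c
      · simp only [Bool.false_eq_true, if_false] at h3 ⊢
        omega
      · simp only [if_true] at h3 ⊢
        omega
    · rintro ⟨e, ⟨h1, h2⟩, h4⟩
      refine ⟨e, h1, ?_, ?_, h4⟩
      · obtain ⟨x, y, c⟩ := e
        simp only [Pool.Agent.W808.KC.Ss, H906.Cyl.dco, Set.mem_ofPred_eq] at h2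
        simp only [strip, src, Set.mem_ofPred_eq]
        cases c
        · simp only [Bool.false_eq_true, if_false] at h2
          omega
        · simp only [if_true] at h2
          omega
      · obtain ⟨x, y, c⟩ := e
        simp only [Pool.Agent.W808.KC.Ss, H906.Cyl.dco, Set.mem_ofPred_eq] at h2
        simp only [strip, tgt, Set.mem_ofPred_eq]
        cases c
        · simp only [Bool.false_eq_true, if_false] at h2 ⊢
          omega
        · simp only [if_true] at h2 ⊢
          omega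
  unfold Conn H974.Reach
  rw [h]

theorem legs_iff (n m : ℕ) (ω : Conf) :
    Legs n m ω ↔ Pool.Agent.W808.KC.P0 n m {e | ω e = true} := by
  unfold Legs Pool.Agent.W808.KC.P0 Pool.Agent.W808.KC.cv Pool.Agent.W808.KC.cw
  simp only [conn_eq]

/-- **The exact law of `m` legs between the two corners of the half-infinite strip.** For all `m ≥ 2`
and all widths the probability is `C(2 m, n + 1 - m) / C(2, n)`; for fixed `m` it is of order
`n ^ (- 2 m (m - 1) / 3)`, that is `n ^ (- 2 j (j + 1) / 3)` for the `j = m - 1` alternating arms at each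
of the two corners. -/
theorem result :
    (∀ n m : ℕ, 2 ≤ m → m ≤ n + 1 →
      crit.real {ω | Legs n m ω} = C (2 * m) (n + 1 - m) / C 2 n) ∧
    (∀ m : ℕ, 2 ≤ m → ∃ a b : ℝ, 0 < a ∧ 0 < b ∧ ∀ n : ℕ, m ≤ n + 1 →
      a * ((n : ℝ) + 1) ^ (-(2 * (m : ℝ) * (m - 1) / 3)) ≤ crit.real {ω | Legs n m ω} ∧
      crit.real {ω | Legs n m ω} ≤ b * ((n : ℝ) + 1) ^ (-(2 * (m : ℝ) * (m - 1) / 3))) := by
  have hlaw : ∀ n m : ℕ, 2 ≤ m → m ≤ n + 1 →
      crit.real {ω | Legs n m ω} = Pool.Agent.W808.KC.Pk m (n + 1 - m) := by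
    intro n m h1 h2
    have e : {ω | Legs n m ω} = {ω | Pool.Agent.W808.KC.P0 n m {e | ω e = true}} := by
      ext ω
      exact legs_iff n m ω
    rw [e]
    exact Pool.Agent.W808.KC.a_INF n m h1 h2
  refine ⟨fun n m h1 h2 => ?_, fun m hm => ?_⟩
  · rw [hlaw n m h1 h2]
    unfold Pool.Agent.W808.KC.Pk
    have e : m + (n + 1 - m) - 1 = n := by omega
    rw [e]
    rfl
  · obtain ⟨c, C', hc, hC, h⟩ := Pool.Agent.W808.KC.t_AS m (by omega)
    obtain ⟨e, he⟩ : ∃ e : ℝ, e = 2 * (m : ℝ) * (m - 1) / 3 := ⟨_, rfl⟩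
    have hm1 : (2 : ℝ) ≤ m := by exact_mod_cast hm
    have he0 : 0 ≤ e := by
      rw [he]
      have : 0 ≤ (m : ℝ) * (m - 1) := mul_nonneg (by linarith) (by linarith)
      linarith
    rw [← he] at h ⊢
    refine ⟨c, C' * (m : ℝ) ^ e, hc, by positivity, fun n hn => ?_⟩
    rw [hlaw n m hm hn]
    obtain ⟨M, hM⟩ : ∃ M : ℕ, n + 1 = m + M := ⟨n + 1 - m, by omega⟩
    have hM' : n + 1 - m = M := by omega
    rw [hM']
    obtain ⟨h1, h2⟩ := h M
    have hn1 : (n : ℝ) + 1 = m + M := by exact_mod_cast hM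
    rw [hn1]
    have hp : (0 : ℝ) < (m : ℝ) + M := by positivity
    have hM1 : (0 : ℝ) < (M : ℝ) + 1 := by positivity
    constructor
    · refine le_trans (mul_le_mul_of_nonneg_left ?_ hc.le) h1
      exact Real.rpow_le_rpow_of_nonpos hM1 (by linarith) (by linarith)
    · refine le_trans h2 ?_
      rw [mul_assoc]
      refine mul_le_mul_of_nonneg_left ?_ hC.le
      have h3 : (M : ℝ) + 1 = (m : ℝ) * (((M : ℝ) + 1) / m) := by field_simp
      have h4 : ((m : ℝ) + M) / m ≤ (M : ℝ) + 1 := by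
        rw [div_le_iff₀ (by linarith)]
        have : (0 : ℝ) ≤ M := by positivity
        nlinarith
      have h5 : ((M : ℝ) + 1) ^ (-e) ≤ (((m : ℝ) + M) / m) ^ (-e) :=
        Real.rpow_le_rpow_of_nonpos (by positivity) h4 (by linarith)
      refine h5.trans (le_of_eq ?_)
      rw [Real.div_rpow hp.le (by linarith), Real.rpow_neg (by linarith : (0 : ℝ) ≤ m), div_inv_eq_mul,
        mul_comm]

end Pool.Agent.Results.MP_b3e76a_pr.CornerLegs
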