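import Pool.Agent.W819.EN.Final

/-!
Critical bond percolation on the square lattice (the FK model with `q = 1` at its self-dual point):
the multifractal spectrum of extreme nesting and the maximal nesting.

`layers n v ω` is the minimal number of colour changes of a path from the vertex `v` to the sup
distance `n` of `v`, i.e. the number of nested alternating (open / dual-open) layers around `v`.

Definitions: `sqLattice`, `bondLaw`, `hlf` (`= 1/2`), `openGraph` in `Pool.Agent.H974R2.Model`,
`Pool.Agent.H974R2.Infinite`; `Pt`, `Corner`, `Free`, `Change` in `Pool.Agent.H863R2.NL.Defs`;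
`ReachFrom`, `dist2`, `layers` in `Pool.Agent.W819.EN.Layers`; `vb`, `Psi`, `Lam`, `Rate`, `nuc` in
`Pool.Agent.W819.EN.Defs`.
-/

namespace Pool.Agent.Results.MP_b3e76a_pr.ExtremeNesting

open MeasureTheory H974 Filter Pool.Agent.W819.EN
open scoped Topology

theorem result :
    ∃ νs : ℝ, nuc < νs ∧ Rate νs = 2 ∧ ∀ᵐ ω ∂(bondLaw hlf),
      (∀ ν : ℝ, 0 < ν → ν < nuc → Tendsto (fun n : ℕ =>
        Real.log (((vb n).filter (fun v => (layers n v ω : ℝ) ≤ ν * Real.log n)).card : ℝ) /
          Real.log n) atTop (𝓝 (2 - Rate ν))) ∧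
      (∀ ν : ℝ, nuc < ν → ν < νs → Tendsto (fun n : ℕ =>
        Real.log (((vb n).filter (fun v => ν * Real.log n ≤ (layers n v ω : ℝ))).card : ℝ) /
          Real.log n) atTop (𝓝 (2 - Rate ν))) ∧
      Tendsto (fun n : ℕ => (((vb n).sup (fun v => layers n v ω) : ℕ) : ℝ) / Real.log n) atTop
        (𝓝 νs) :=
  main_layers

end Pool.Agent.Results.MP_b3e76a_pr.ExtremeNesting
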