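import Pool.Agent.W822.PV.Dlow2

/-!
The random cluster model with `q = 1` at its self-dual point (critical bond percolation) on `δ ℤ²`
in a rectangle `D = (-A, B) × (0, H)` with Dobrushin boundary conditions: the counterclockwise
boundary arc from `a = t + i H` to `b = 0` is wired, the other one is free.

Let `𝒞` be distributed according to any weak limit, as `δ → 0`, of the laws of the collection of
all open clusters (for the Hausdorff metric on nonempty compact sets of nonempty compact sets).
Almost surely, for every nonempty open subset `U` of `D`, the set of the points of `U` which lie on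
two distinct members of `𝒞` that are not single points has Hausdorff dimension exactly `3 / 4`.

Definitions (in `Pool.Agent.H934R2.Expl.Model` and `Pool.Agent.H389R2.CL.Model`): `Rect` (the
domain), `Rect.D` (the open rectangle), `pt`, `Rect.verts`, `Rect.edges` (the discrete domain),
`Rect.wired` (boundary condition), `cluAt` (the vertices of the cluster of a vertex), `csetAt`,
`clAt` (the cluster as a compact set: its vertices and its edges), `coll` (the collection of all
clusters), `collLaw` (its law, all configurations of the edges being equally likely).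
-/

namespace Pool.Agent.Results.MP_b3e76a_pr.TouchingClusters

open MeasureTheory TopologicalSpace Filter Topology H934E Metric
open Pool.Agent.H389R2.CL

theorem result (R : Rect) (δ : ℕ → ℝ) (hδ : ∀ i, 0 < δ i) (hlim : Tendsto δ atTop (𝓝 0))
    (μ : ProbabilityMeasure (NonemptyCompacts (NonemptyCompacts ℂ)))
    (hμ : Tendsto (fun i => collLaw R (δ i)) atTop (𝓝 μ)) :
    ∀ᵐ (𝒞 : NonemptyCompacts (NonemptyCompacts ℂ))
      ∂(μ : Measure (NonemptyCompacts (NonemptyCompacts ℂ))),
      ∀ U : Set ℂ, IsOpen U → U.Nonempty → U ⊆ R.D →
        dimH ({w : ℂ | ∃ K ∈ 𝒞, ∃ K' ∈ 𝒞, (K : Set ℂ).Nontrivial ∧ (K' : Set ℂ).Nontrivial ∧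
          K ≠ K' ∧ w ∈ K ∧ w ∈ K'} ∩ U) = 3 / 4 :=
  Pool.Agent.W822.PV.touch_dim R hδ hlim hμ

end Pool.Agent.Results.MP_b3e76a_pr.TouchingClusters
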